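import Mathlib

open Filter Topology Set MeasureTheory
open scoped ENNReal NNReal

namespace Pool.Agent.Results.MP_41ff67_pr.NotShape

/-- Euclidean norm on the plane. -/
noncomputable def en (z : ℝ × ℝ) : ℝ := Real.sqrt (z.1 ^ 2 + z.2 ^ 2)

/-- The weight function `|z|^α f₀(z/|z|)`. -/
noncomputable def wt (α : ℝ) (f₀ : ℝ × ℝ → ℝ) (z : ℝ × ℝ) : ℝ := en z ^ α * f₀ ((en z)⁻¹ • z)

/-- Integral of `1/f` along the segment from `z` to `w`, parametrised by `μ`-length. -/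
noncomputable def seg (μ : Seminorm ℝ (ℝ × ℝ)) (f : ℝ × ℝ → ℝ) (z w : ℝ × ℝ) : ℝ≥0∞ :=
  ENNReal.ofReal (μ (w - z)) * ∫⁻ s in Ioo (0 : ℝ) 1, ENNReal.ofReal (f (z + s • (w - z)))⁻¹

/-- Integral of `1/f` along the piecewise linear path from `z` to `w` through the listed points. -/
noncomputable def cost (μ : Seminorm ℝ (ℝ × ℝ)) (f : ℝ × ℝ → ℝ) :
    ℝ × ℝ → List (ℝ × ℝ) → ℝ × ℝ → ℝ≥0∞
  | z, [], w => seg μ f z w
  | z, a :: l, w => seg μ f z a + cost μ f a l w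

/-- The weighted distance. -/
noncomputable def D (μ : Seminorm ℝ (ℝ × ℝ)) (f : ℝ × ℝ → ℝ) (z w : ℝ × ℝ) : ℝ≥0∞ :=
  ⨅ l : List (ℝ × ℝ), cost μ f z l w

/-- Near each boundary point, after a rotation, `K` lies below a Lipschitz graph. -/
def LipBdry (K : Set (ℝ × ℝ)) : Prop :=
  ∀ p ∈ frontier K, ∃ (a b : ℝ) (L : ℝ≥0) (g : ℝ → ℝ), a ^ 2 + b ^ 2 = 1 ∧ LipschitzWith L g ∧
    ∀ᶠ z in 𝓝 p, z ∈ K ↔ b * z.1 + a * z.2 ≤ g (a * z.1 - b * z.2)

variable {μ : Seminorm ℝ (ℝ × ℝ)} {α : ℝ} {f₀ : ℝ × ℝ → ℝ}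

theorem cost_app (f : ℝ × ℝ → ℝ) (l : List (ℝ × ℝ)) (z w v : ℝ × ℝ) :
    cost μ f z (l ++ [w]) v = cost μ f z l w + seg μ f w v := by
  induction l generalizing z with
  | nil => rfl
  | cons a l ih => simp only [List.cons_append, cost, ih, add_assoc]

theorem wt_smul {t : ℝ} (ht : 0 < t) (z : ℝ × ℝ) : wt α f₀ (t • z) = t ^ α * wt α f₀ z := by
  have e : en (t • z) = t * en z := by
    simp only [en, Prod.smul_fst, Prod.smul_snd, smul_eq_mul, mul_pow, ← mul_add]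
    rw [Real.sqrt_mul (sq_nonneg t), Real.sqrt_sq ht.le]
  rw [wt, wt, e, Real.mul_rpow ht.le (show 0 ≤ en z from Real.sqrt_nonneg _), smul_smul, mul_inv, mul_comm t⁻¹,
    mul_assoc _ t⁻¹, inv_mul_cancel₀ ht.ne', mul_one, mul_assoc]

theorem seg_smul {t : ℝ} (ht : 0 < t) (z w : ℝ × ℝ) :
    seg μ (wt α f₀) (t • z) (t • w) = ENNReal.ofReal (t ^ (1 - α)) * seg μ (wt α f₀) z w := by
  have p := Real.rpow_pos_of_pos ht α
  have e : ∀ s : ℝ, t • z + s • t • (w - z) = t • (z + s • (w - z)) := fun s => by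
    rw [smul_add, smul_comm]
  simp only [seg, ← smul_sub, e, wt_smul ht, mul_inv, map_smul_eq_mul, Real.norm_of_nonneg ht.le,
    ENNReal.ofReal_mul (inv_nonneg.2 p.le), ENNReal.ofReal_mul ht.le]
  rw [lintegral_const_mul' _ _ ENNReal.ofReal_ne_top, Real.rpow_sub ht, Real.rpow_one,
    div_eq_mul_inv, ENNReal.ofReal_mul ht.le]
  ring

theorem cost_smul {t : ℝ} (ht : 0 < t) (l : List (ℝ × ℝ)) (z w : ℝ × ℝ) :
    cost μ (wt α f₀) (t • z) (l.map (t • ·)) (t • w) =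
      ENNReal.ofReal (t ^ (1 - α)) * cost μ (wt α f₀) z l w := by
  induction l generalizing z with
  | nil => exact seg_smul ht z w
  | cons a l ih => simp only [List.map_cons, cost, ih, seg_smul ht, mul_add]

theorem D_le {t : ℝ} (ht : 0 < t) (z v : ℝ × ℝ) : D μ (wt α f₀) 0 v ≤
    ENNReal.ofReal (t ^ (1 - α)) * D μ (wt α f₀) 0 z + seg μ (wt α f₀) (t • z) v := by
  rw [D, D, ENNReal.mul_iInf_of_ne (by simp [Real.rpow_pos_of_pos ht]) ENNReal.ofReal_ne_top,
    ENNReal.iInf_add]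
  refine le_iInf fun l => iInf_le_of_le (l.map (t • ·) ++ [t • z]) ?_
  rw [cost_app, ← cost_smul ht, smul_zero]

/-- Upper boundary. -/
noncomputable def g (x : ℝ) : ℝ := 1 - |x| + (max 0 (min x 1)) ^ 2

/-- Lower boundary. -/
noncomputable def h (x : ℝ) : ℝ := |x - 1 / 2| - 3 / 2

/-- Defining function. -/
noncomputable def ψ (z : ℝ × ℝ) : ℝ := max (h z.1 - z.2) (z.2 - g z.1)

theorem g_cont : Continuous g := by unfold g; fun_prop

theorem h_cont : Continuous h := by unfold h; fun_prop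

theorem ψ_cont : Continuous ψ :=
  ((h_cont.comp continuous_fst).sub continuous_snd).max
    (continuous_snd.sub (g_cont.comp continuous_fst))

theorem star {z : ℝ × ℝ} (hz : ψ z ≤ 0) {s : ℝ} (h0 : 0 ≤ s) (h1 : s < 1) : ψ (s • z) < 0 := by
  simp only [ψ, max_le_iff, max_lt_iff, Prod.smul_fst, Prod.smul_snd, smul_eq_mul, g, h] at hz ⊢
  obtain ⟨a, b⟩ := hz
  constructor
  · have : |s * z.1 - 1 / 2| ≤ s * |z.1 - 1 / 2| + (1 - s) / 2 := by
      rw [abs_le]
      constructor <;> nlinarith [le_abs_self (z.1 - 1 / 2), neg_abs_le (z.1 - 1 / 2)]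
    nlinarith
  · rw [abs_mul, abs_of_nonneg h0]
    have c0 : 0 ≤ max 0 (min z.1 1) := le_max_left _ _
    have c1 : max 0 (min z.1 1) ≤ 1 := max_le zero_le_one (min_le_right _ _)
    have c2 : s * max 0 (min z.1 1) ≤ max 0 (min (s * z.1) 1) := by
      rw [mul_max_of_nonneg _ _ h0, mul_zero, mul_min_of_nonneg _ _ h0]
      exact max_le_max le_rfl (min_le_min le_rfl (by linarith))
    have c3 := pow_le_pow_left₀ (mul_nonneg h0 c0) c2 2
    generalize max 0 (min z.1 1) = c at *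
    have c4 : s * c ^ 2 < 1 :=
      (mul_le_of_le_one_right h0 (pow_le_one₀ c0 c1)).trans_lt h1
    nlinarith [mul_pos (sub_pos.2 h1) (sub_pos.2 c4)]

theorem closed : IsClosed {z | ψ z ≤ 0} := isClosed_le ψ_cont continuous_const

theorem fr {z : ℝ × ℝ} : z ∈ frontier {z | ψ z ≤ 0} ↔ ψ z = 0 := by
  refine ⟨fun hz => frontier_le_subset_eq ψ_cont continuous_const hz, fun hz => ?_⟩
  rw [closed.frontier_eq]
  refine ⟨hz.le, fun hi => ?_⟩
  have c : ContinuousAt (fun s : ℝ => s • z) 1 := by fun_prop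
  have e := c.eventually (show {z | ψ z ≤ 0} ∈ 𝓝 ((1 : ℝ) • z) by
    rw [one_smul]; exact mem_interior_iff_mem_nhds.1 hi)
  obtain ⟨s, h1, h2⟩ := ((e.filter_mono (nhdsWithin_le_nhds (s := Ioi 1))).and
    self_mem_nhdsWithin).exists
  have h3 : (1 : ℝ) < s := h2
  have := star h1 (s := s⁻¹) (by positivity) (inv_lt_one_of_one_lt₀ h3)
  rw [smul_smul, inv_mul_cancel₀ (by positivity), one_smul] at this
  exact this.ne hz

theorem bd {z : ℝ × ℝ} (hz : ψ z ≤ 0) : ‖z‖ ≤ 2 := by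
  simp only [ψ, max_le_iff, g, h] at hz
  have c0 : 0 ≤ max 0 (min z.1 1) := le_max_left _ _
  have c1 : max 0 (min z.1 1) ≤ 1 := max_le zero_le_one (min_le_right _ _)
  have c2 : max 0 (min z.1 1) ^ 2 ≤ 1 := by nlinarith
  rw [Prod.norm_def, max_le_iff, Real.norm_eq_abs, Real.norm_eq_abs, abs_le, abs_le]
  refine ⟨⟨?_, ?_⟩, ?_, ?_⟩ <;>
    linarith [hz.1, hz.2, le_abs_self z.1, neg_abs_le z.1, le_abs_self (z.1 - 1 / 2),
      neg_abs_le (z.1 - 1 / 2), abs_nonneg z.1, abs_nonneg (z.1 - 1 / 2)]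

theorem lipg : LipschitzWith 3 g := LipschitzWith.of_dist_le_mul fun x y => by
  have a := abs_abs_sub_abs_le_abs_sub x y
  have b : |max 0 (min x 1) - max 0 (min y 1)| ≤ |x - y| :=
    (abs_max_sub_max_le_max _ _ _ _).trans (by
      simpa using (abs_min_sub_min_le_max x 1 y 1).trans (by simp))
  have c0 : ∀ x : ℝ, 0 ≤ max 0 (min x 1) := fun x => le_max_left _ _
  have c1 : ∀ x : ℝ, max 0 (min x 1) ≤ 1 := fun x => max_le zero_le_one (min_le_right _ _)
  simp only [Real.dist_eq, g, NNReal.coe_ofNat]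
  rw [abs_le] at a b ⊢
  constructor <;> nlinarith [c0 x, c0 y, c1 x, c1 y, abs_nonneg (x - y)]

theorem lipa (c d : ℝ) : LipschitzWith 1 fun t : ℝ => c - |t + d| :=
  LipschitzWith.of_dist_le_mul fun x y => by
    have a := abs_abs_sub_abs_le_abs_sub (y + d) (x + d)
    rw [add_sub_add_right_eq_sub, abs_sub_comm y] at a
    rw [Real.dist_eq, Real.dist_eq, sub_sub_sub_cancel_left, NNReal.coe_one, one_mul]
    exact a

theorem lip : LipBdry {z | ψ z ≤ 0} := by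
  intro p hp
  have h0 := (fr.1 hp).le
  simp only [ψ, max_le_iff, sub_nonpos] at h0
  simp only [ψ, max_le_iff, sub_nonpos, mem_ofPred_eq]
  rcases h0.1.lt_or_eq with e | e
  · refine ⟨1, 0, 3, g, by norm_num, lipg, ?_⟩
    filter_upwards [(isOpen_lt (h_cont.comp continuous_fst) continuous_snd).mem_nhds e] with z hz
    have hz : h z.1 < z.2 := hz
    simp [hz.le]
  rcases h0.2.lt_or_eq with e' | e'
  · refine ⟨-1, 0, 1, _, by norm_num, lipa (3 / 2) (1 / 2), ?_⟩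
    filter_upwards [(isOpen_lt continuous_snd (g_cont.comp continuous_fst)).mem_nhds e'] with z hz
    have hz : z.2 < g z.1 := hz
    rw [and_iff_left hz.le, h, abs_sub_comm, show -1 * z.1 - 0 * z.2 + 1 / 2 =
      1 / 2 - z.1 by ring]
    constructor <;> intro <;> linarith
  have k := e.trans e'
  simp only [g, h] at k
  rcases lt_or_ge p.1 0 with x0 | x0
  · refine ⟨0, -1, 1, _, by norm_num, lipa 1 0, ?_⟩
    filter_upwards [(isOpen_lt continuous_fst continuous_const).mem_nhds x0] with z hz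
    have hz : z.1 < 0 := hz
    rw [g, h, abs_of_neg hz, abs_of_neg (by linarith), min_eq_left (by linarith),
      max_eq_left hz.le, show 0 * z.1 - -1 * z.2 + 0 = z.2 by ring]
    rcases abs_cases z.2 with a | a <;> constructor <;> intro b <;>
      first | linarith [b.1, b.2] | (constructor <;> linarith)
  rcases lt_or_ge 1 p.1 with x1 | x1
  · refine ⟨0, 1, 1, _, by norm_num, lipa 2 0, ?_⟩
    filter_upwards [(isOpen_lt continuous_const continuous_fst).mem_nhds x1] with z hz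
    have hz : 1 < z.1 := hz
    rw [g, h, abs_of_pos (by linarith : 0 < z.1), abs_of_pos (by linarith), min_eq_right hz.le,
      max_eq_right zero_le_one, show 0 * z.1 - 1 * z.2 + 0 = -z.2 by ring, abs_neg]
    rcases abs_cases z.2 with a | a <;> constructor <;> intro b <;>
      first | linarith [b.1, b.2] | (constructor <;> linarith)
  · exfalso
    rw [abs_of_nonneg x0] at k
    rcases abs_cases (p.1 - 1 / 2) with a | a <;> nlinarith [sq_nonneg (max 0 (min p.1 1))]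

theorem ray (v : ℝ × ℝ) (hv : v ≠ 0) : ∃! t : ℝ, 0 < t ∧ t • v ∈ frontier {z | ψ z ≤ 0} := by
  have p := norm_pos_iff.2 hv
  have z0 : ψ ((0 : ℝ) • v) < 0 := by simp [ψ, g, h]; norm_num [abs_of_pos]
  have z1 : 0 ≤ ψ ((3 / ‖v‖) • v) := by
    by_contra k
    have := bd (not_le.1 k).le
    rw [norm_smul, Real.norm_of_nonneg (by positivity), div_mul_cancel₀ _ p.ne'] at this
    linarith
  obtain ⟨t, ht, e⟩ := intermediate_value_Icc (f := fun t : ℝ => ψ (t • v))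
    (show 0 ≤ 3 / ‖v‖ by positivity) (ψ_cont.comp (by fun_prop)).continuousOn ⟨z0.le, z1⟩
  have t0 : 0 < t := lt_of_le_of_ne ht.1 (by rintro rfl; exact z0.ne e)
  have u : ∀ a b : ℝ, 0 < a → a < b → ψ (b • v) = 0 → ψ (a • v) ≠ 0 := fun a b ha hab hb => by
    have hb0 : 0 < b := ha.trans hab
    have := star hb.le (s := a / b) (by positivity) ((div_lt_one hb0).2 hab)
    rw [smul_smul, div_mul_cancel₀ _ hb0.ne'] at this
    exact this.ne
  refine ⟨t, ⟨t0, fr.2 e⟩, fun s hs => ?_⟩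
  rcases lt_trichotomy s t with k | k | k
  · exact absurd (fr.1 hs.2) (u s t hs.1 k e)
  · exact k
  · exact absurd e (u t s t0 k (fr.1 hs.2))

theorem result : ∃ K : Set (ℝ × ℝ), IsCompact K ∧ LipBdry K ∧ K ∈ 𝓝 0 ∧
    (∀ v : ℝ × ℝ, v ≠ 0 → ∃! t : ℝ, 0 < t ∧ t • v ∈ frontier K) ∧
    ∀ (μ : Seminorm ℝ (ℝ × ℝ)) (α : ℝ) (f₀ : ℝ × ℝ → ℝ) (L : ℝ≥0), α < 1 →
      (∀ z, en z = 1 → 0 < f₀ z) → LipschitzOnWith L f₀ {z | en z = 1} →
      K ≠ {z | D μ (wt α f₀) 0 z ≤ 1} := by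
  refine ⟨{z | ψ z ≤ 0}, (isCompact_closedBall 0 2).of_isClosed_subset closed fun z hz =>
    mem_closedBall_zero_iff.2 (bd hz), lip, ?_, ray, fun μ α f₀ L hα hp hL hK => ?_⟩
  · refine mem_of_superset ((isOpen_lt ψ_cont continuous_const).mem_nhds
      (show ψ 0 < 0 by simp [ψ, g, h]; norm_num [abs_of_pos])) fun z (hz : ψ z < 0) => hz.le
  have ec : Continuous en := by unfold en; fun_prop
  have un : ∀ z, 0 < en z → en ((en z)⁻¹ • z) = 1 := fun z hz => by
    have := wt_smul (α := 1) (f₀ := fun _ => 1) (inv_pos.2 hz) z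
    simp only [wt, Real.rpow_one, mul_one] at this
    rw [this, inv_mul_cancel₀ hz.ne']
  have e1 : 0 < en (1, 1) := Real.sqrt_pos.2 (by norm_num)
  have wc : ContinuousAt (wt α f₀) (1, 1) := by
    refine (ec.continuousAt.rpow_const (Or.inl e1.ne')).mul ?_
    refine (hL.continuousOn _ (un _ e1)).tendsto.comp
      (tendsto_nhdsWithin_iff.2 ⟨(ec.continuousAt.inv₀ e1.ne').smul continuousAt_id, ?_⟩)
    exact (ec.continuousAt.eventually (lt_mem_nhds e1)).mono un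
  have wp : 0 < wt α f₀ (1, 1) := mul_pos (Real.rpow_pos_of_pos e1 _) (hp _ (un _ e1))
  set m := wt α f₀ (1, 1) / 2 with hm
  have m0 : 0 < m := by positivity
  obtain ⟨r, r0, hr⟩ := Metric.eventually_nhds_iff.1
    (wc.eventually (lt_mem_nhds (show m < _ by linarith)))
  set c := min (1 - α) 1 with hc
  have c0 : 0 < c := lt_min (by linarith) one_pos
  set M := μ (0, 1) * m⁻¹ with hM
  have M0 : 0 ≤ M := mul_nonneg (apply_nonneg _ _) (inv_nonneg.2 m0.le)
  obtain ⟨δ, ⟨d1, d2, d3⟩, d0⟩ := ((((gt_mem_nhds r0 : ∀ᶠ δ in 𝓝 (0 : ℝ), δ < r).and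
    ((gt_mem_nhds one_pos : ∀ᶠ δ in 𝓝 (0 : ℝ), δ < 1).and
      (gt_mem_nhds (show 0 < c / (2 * M + 1) by positivity) : ∀ᶠ δ in 𝓝 (0 : ℝ), δ < _))).filter_mono
    (nhdsWithin_le_nhds (s := Ioi 0))).and self_mem_nhdsWithin).exists
  have d0 : 0 < δ := d0
  have k1 : D μ (wt α f₀) 0 (1, 1) ≤ 1 := by
    have : (1, 1) ∈ {z | ψ z ≤ 0} := by simp [ψ, g, h]; norm_num [abs_of_pos]
    rw [hK] at this
    exact this
  have k2 : (1 - δ) ^ (1 - α) ≤ 1 - c * δ := by
    have := rpow_one_add_le_one_add_mul_self (s := -δ) (by linarith) c0.le (min_le_right _ _)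
    rw [← sub_eq_add_neg, mul_neg, ← sub_eq_add_neg] at this
    exact (Real.rpow_le_rpow_of_exponent_ge (by linarith) (by linarith) (min_le_left _ _)).trans this
  have k3 : seg μ (wt α f₀) ((1 - δ) • (1, 1)) (1 - δ, 1 - δ + 2 * δ ^ 2) ≤
      ENNReal.ofReal (2 * δ ^ 2 * M) := by
    have e : ((1 - δ, 1 - δ + 2 * δ ^ 2) : ℝ × ℝ) - (1 - δ) • (1, 1) = (2 * δ ^ 2) • (0, 1) := by
      simp
    rw [seg, e, map_smul_eq_mul, Real.norm_of_nonneg (by positivity), hM, ← mul_assoc,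
      ENNReal.ofReal_mul (p := 2 * δ ^ 2 * μ (0, 1)) (by positivity)]
    refine mul_le_mul_right ((setLIntegral_mono' (g := fun _ => ENNReal.ofReal m⁻¹)
      measurableSet_Ioo fun s hs => ENNReal.ofReal_le_ofReal (inv_anti₀ m0 (hr ?_).le)).trans
      (by simp)) _
    have := mul_pos hs.1 (pow_pos d0 2)
    have := mul_lt_mul_of_pos_right hs.2 (pow_pos d0 2)
    simp only [Prod.dist_eq, Real.dist_eq, max_lt_iff, abs_lt, Prod.smul_mk, Prod.mk_add_mk,
      smul_eq_mul]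
    refine ⟨⟨?_, ?_⟩, ?_, ?_⟩ <;> nlinarith
  have k4 : (1 - δ, 1 - δ + 2 * δ ^ 2) ∈ {z | ψ z ≤ 0} := by
    rw [hK]
    refine (D_le (t := 1 - δ) (by linarith) (1, 1) _).trans ((add_le_add
      ((mul_le_mul' (ENNReal.ofReal_le_ofReal k2) k1).trans (mul_one _).le) k3).trans ?_)
    have : c ≤ 1 := min_le_right _ _
    rw [← ENNReal.ofReal_add (by nlinarith) (by positivity), ENNReal.ofReal_le_one]
    rw [lt_div_iff₀ (by positivity)] at d3
    nlinarith
  simp only [ψ, max_le_iff, g, mem_ofPred_eq] at k4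
  rw [abs_of_pos (by linarith : 0 < 1 - δ), min_eq_left (by linarith : 1 - δ ≤ 1),
    max_eq_right (by linarith : 0 ≤ 1 - δ)] at k4
  nlinarith [k4.2]

end Pool.Agent.Results.MP_41ff67_pr.NotShape
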